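import Pool.Agent.Helper95.GG.Hall
namespace Pool.Agent.Helper95.GG

open Pool.Agent.Helper5.ST Pool.Agent.Helper5.Gap
open scoped commutatorElement

universe u

theorem finite_hom {P Q : Type*} [Group P] [Group Q] [Finite Q] (hP : Group.FG P) :
    Finite (P →* Q) := by
  obtain ⟨S, hS⟩ := Group.fg_def.mp hP
  refine Finite.of_injective (fun f : P →* Q => fun s : S => f s.1) ?_
  intro f g hfg
  refine MonoidHom.eq_of_eqOn_dense hS ?_
  intro x hx
  exact congrFun hfg ⟨x, hx⟩

/-- Packet CHARN. -/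
theorem charN : SCharN.{u} := by
  intro H _ P _ hP hvn
  obtain ⟨N₀, hN₀, hnil⟩ := hvn
  have hPfg : Group.FG P := (Group.fg_iff_subgroup_fg P).mpr hP
  have : Finite (P ⧸ N₀) := Subgroup.finite_quotient_of_finiteIndex
  have : Finite (P →* Equiv.Perm (P ⧸ N₀)) := finite_hom hPfg
  set N₁ : Subgroup P := ⨅ f : P →* Equiv.Perm (P ⧸ N₀), f.ker with hN₁
  have hfin : N₁.FiniteIndex := Subgroup.finiteIndex_iInf fun f => inferInstance
  have hmem : ∀ x, x ∈ N₁ ↔ ∀ f : P →* Equiv.Perm (P ⧸ N₀), f x = 1 := by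
    intro x
    rw [hN₁, Subgroup.mem_iInf]
    exact Iff.rfl
  have hle : N₁ ≤ N₀ := by
    intro x hx
    have h1 := (hmem x).mp hx (MulAction.toPermHom P (P ⧸ N₀))
    have h2 := congrArg (fun e : Equiv.Perm (P ⧸ N₀) => e (QuotientGroup.mk 1)) h1
    have h3 : (QuotientGroup.mk (x * 1) : P ⧸ N₀) = QuotientGroup.mk 1 := h2
    rw [QuotientGroup.eq] at h3
    simpa using h3
  refine ⟨N₁.map P.subtype, ⟨?_⟩, ?_, ?_, ?_⟩
  · rintro _ ⟨x, hx, rfl⟩ h
    refine ⟨MulAut.conjNormal h x, ?_, by simp⟩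
    rw [SetLike.mem_coe, hmem] at hx ⊢
    intro f
    exact hx (f.comp (MulAut.conjNormal h).toMonoidHom)
  · exact Subgroup.map_subtype_le N₁
  · have h1 : (N₁.map P.subtype).subgroupOf P = N₁ :=
      Subgroup.comap_map_eq_self_of_injective P.subtype_injective N₁
    rw [Subgroup.relIndex, h1]
    exact hfin.index_ne_zero
  · have h2 : Group.IsNilpotent (N₁.subgroupOf N₀) := inferInstance
    have h3 : Group.IsNilpotent N₁ :=
      Group.nilpotent_of_mulEquiv (Subgroup.subgroupOfEquivOfLe hle)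
    exact Group.nilpotent_of_mulEquiv (N₁.equivMapOfInjective P.subtype P.subtype_injective)

end Pool.Agent.Helper95.GG
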