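import Pool.Agent.Helper5.ST.GoalsB

/-!
Packets HALL and CHARN of MP_f1caa3_al (helper5).
-/

namespace Pool.Agent.Helper95.GG

open Pool.Agent.Helper5.ST Pool.Agent.Helper5.Gap
open scoped commutatorElement

universe u

variable {Γ : Type u} [Group Γ]

/-- `B ↦ [B, A]`. -/
def T (A : Subgroup Γ) : Subgroup Γ → Subgroup Γ := fun B => ⁅B, A⁆

theorem T_mono (A : Subgroup Γ) : Monotone (T A) := fun _ _ h => Subgroup.commutator_mono h le_rfl

instance T_normal (A B : Subgroup Γ) [A.Normal] [B.Normal] : (T A B).Normal := by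
  unfold T; infer_instance

theorem T_iter_normal (A : Subgroup Γ) [A.Normal] (t : ℕ) :
    ∀ B : Subgroup Γ, B.Normal → ((T A)^[t] B).Normal := by
  induction t with
  | zero => intro B hB; simpa using hB
  | succ t ih =>
    intro B hB
    rw [Function.iterate_succ_apply]
    exact ih _ (T_normal A B)

theorem T_le (A B : Subgroup Γ) [B.Normal] : T A B ≤ B := Subgroup.commutator_le_left B A

theorem T_iter_anti (A : Subgroup Γ) [A.Normal] (B : Subgroup Γ) [B.Normal] {s t : ℕ}
    (h : s ≤ t) : (T A)^[t] B ≤ (T A)^[s] B := by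
  induction t, h using Nat.le_induction with
  | base => exact le_rfl
  | succ t _ ih =>
    rw [Function.iterate_succ_apply']
    have := T_iter_normal A t B inferInstance
    exact (T_le A _).trans ih

theorem quot_bot {M B C A : Subgroup Γ} [M.Normal] :
    ⁅⁅B, C⁆, A⁆ ≤ M ↔ ⁅⁅B.map (QuotientGroup.mk' M), C.map (QuotientGroup.mk' M)⁆,
      A.map (QuotientGroup.mk' M)⁆ = ⊥ := by
  rw [← Subgroup.map_commutator, ← Subgroup.map_commutator, Subgroup.map_eq_bot_iff,
    QuotientGroup.ker_mk']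

/-- Three subgroups lemma modulo a normal subgroup. -/
theorem three_sub {M B C A : Subgroup Γ} [M.Normal] (h1 : ⁅⁅B, A⁆, C⁆ ≤ M)
    (h2 : ⁅B, ⁅C, A⁆⁆ ≤ M) : ⁅⁅B, C⁆, A⁆ ≤ M := by
  rw [Subgroup.commutator_comm B A, quot_bot] at h1
  rw [Subgroup.commutator_comm B ⁅C, A⁆, quot_bot] at h2
  rw [quot_bot]
  exact Subgroup.commutator_commutator_eq_bot_of_rotate h2 h1

theorem T_sup (A X Y : Subgroup Γ) [A.Normal] [X.Normal] [Y.Normal] :
    T A (X ⊔ Y) ≤ T A X ⊔ T A Y := by
  set M := T A X ⊔ T A Y with hM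
  have : M.Normal := by rw [hM]; infer_instance
  unfold T
  rw [Subgroup.commutator_le]
  intro g hg a ha
  obtain ⟨x, hx, y, hy, rfl⟩ := Subgroup.mem_sup_of_normal_left.mp hg
  have hxm : ⁅x, a⁆ ∈ M := (le_sup_left : T A X ≤ M) (Subgroup.commutator_mem_commutator hx ha)
  have hym : ⁅y, a⁆ ∈ M := (le_sup_right : T A Y ≤ M) (Subgroup.commutator_mem_commutator hy ha)
  have h3 : ⁅x * y, a⁆ = x * ⁅y, a⁆ * x⁻¹ * ⁅x, a⁆ := by
    simp only [commutatorElement_def]; group
  rw [h3]
  exact M.mul_mem (‹M.Normal›.conj_mem _ hym x) hxm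

theorem T_iter_sup (A : Subgroup Γ) [A.Normal] (t : ℕ) : ∀ X Y : Subgroup Γ, X.Normal → Y.Normal →
    (T A)^[t] (X ⊔ Y) ≤ (T A)^[t] X ⊔ (T A)^[t] Y := by
  induction t with
  | zero => intro X Y _ _; simp
  | succ t ih =>
    intro X Y hX hY
    rw [Function.iterate_succ_apply, Function.iterate_succ_apply, Function.iterate_succ_apply]
    exact ((T_mono A).iterate t (T_sup A X Y)).trans (ih _ _ (T_normal A X) (T_normal A Y))

theorem T_iter_comm (A M : Subgroup Γ) [A.Normal] (t : ℕ) : ∀ B C : Subgroup Γ, B.Normal →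
    C.Normal → (∀ a b, a + b = t → ⁅(T A)^[a] B, (T A)^[b] C⁆ ≤ M) →
    (T A)^[t] ⁅B, C⁆ ≤ M := by
  induction t with
  | zero =>
    intro B C _ _ h
    simpa using h 0 0 rfl
  | succ t ih =>
    intro B C hB hC h
    rw [Function.iterate_succ_apply]
    have h1 : T A ⁅B, C⁆ ≤ ⁅T A B, C⁆ ⊔ ⁅B, T A C⁆ := by
      apply three_sub
      · exact le_sup_left
      · exact le_sup_right
    refine ((T_mono A).iterate t h1).trans ?_
    refine (T_iter_sup A t _ _ inferInstance inferInstance).trans (sup_le ?_ ?_)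
    · refine ih _ _ (T_normal A B) hC fun a b hab => ?_
      rw [← Function.iterate_succ_apply]
      exact h (a + 1) b (by omega)
    · refine ih _ _ hB (T_normal A C) fun a b hab => ?_
      rw [← Function.iterate_succ_apply]
      exact h a (b + 1) (by omega)

/-- Packet HALL. -/
theorem hall : SHall.{u} := by
  intro Γ _ N A _ _ hN c hc
  change (T A)^[c] N ≤ _ at hc
  change ∃ c' : ℕ, (T A)^[c'] N = ⊥
  obtain ⟨s, hs⟩ := N.isNilpotent_iff_lowerCentralSeries.mp hN
  set g : ℕ → Subgroup Γ := N.lowerCentralSeries with hg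
  have hg0 : g 0 = N := rfl
  have hgs : ∀ i, g (i + 1) = ⁅g i, N⁆ := fun i => rfl
  have hgn : ∀ i, (g i).Normal := by
    intro i
    induction i with
    | zero => exact ‹N.Normal›
    | succ i ih => rw [hgs]; infer_instance
  -- each quotient of the lower central series is killed
  have hstep : ∀ i, ∃ ci, (T A)^[ci] (g i) ≤ g (i + 1) := by
    intro i
    induction i with
    | zero => exact ⟨c, hc⟩
    | succ i ih =>
      obtain ⟨ci, hci⟩ := ih
      refine ⟨ci + c, ?_⟩
      rw [hgs i]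
      refine T_iter_comm A _ (ci + c) (g i) N (hgn i) ‹N.Normal› fun a b hab => ?_
      by_cases ha : ci ≤ a
      · have := hgn i
        rw [hgs (i + 1)]
        exact Subgroup.commutator_mono ((T_iter_anti A (g i) ha).trans hci)
          (T_iter_anti A N (Nat.zero_le b))
      · have hb : c ≤ b := by omega
        have := hgn i
        calc ⁅(T A)^[a] (g i), (T A)^[b] N⁆ ≤ ⁅g i, ⁅N, N⁆⁆ :=
              Subgroup.commutator_mono (T_iter_anti A (g i) (Nat.zero_le a))
                ((T_iter_anti A N hb).trans hc)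
          _ ≤ ⁅⁅g i, N⁆, N⁆ := commutator_commutator_le' _ _
  have hall : ∀ i, ∃ c', (T A)^[c'] N ≤ g i := by
    intro i
    induction i with
    | zero => exact ⟨0, le_rfl⟩
    | succ i ih =>
      obtain ⟨c', hc'⟩ := ih
      obtain ⟨ci, hci⟩ := hstep i
      refine ⟨ci + c', ?_⟩
      rw [Function.iterate_add_apply]
      exact ((T_mono A).iterate ci hc').trans hci
  obtain ⟨c', hc'⟩ := hall s
  exact ⟨c', le_bot_iff.mp (hc'.trans hs.le)⟩

end Pool.Agent.Helper95.GG
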